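import Mathlib
import Pool.Agent.H.MP_769d7c_al.A

set_option autoImplicit false

namespace Pool.Agent.Results.MP_769d7c_al.No

open Pool.Agent.H.MP_769d7c_al

theorem result : ∃ (G : Type) (_ : Group G), (∀ f : G → ℝ, SO f → Bd f) ∧
    ¬ ∀ f : G → ℝ, BO f → Bd f := by
  let A := Multiplicative ℝ
  have i := (MonoidHom.inl A A).ofInjective (Prod.mk_left_injective 1)
  have j := (MonoidHom.inr A A).ofInjective (Prod.mk_right_injective 1)
  have : Uncountable A := inferInstanceAs (Uncountable ℝ)
  have := i.injective.uncountable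
  obtain ⟨f, a, b⟩ := bo (i.symm.trans j) fun v ⟨x, p⟩ ⟨y, q⟩ =>
    Prod.ext (congrArg Prod.fst q).symm (congrArg Prod.snd p).symm
  exact ⟨_, inferInstance, so (i.symm.trans j), fun c => b (c f a)⟩

end Pool.Agent.Results.MP_769d7c_al.No
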